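import Pool.Agent.ZPT.Stmts

set_option autoImplicit false

/-!
# Squad ZPT, row AM: at most one large coordinate
-/

namespace Pool.Agent.ZPT.H41

open Polynomial

theorem am (hGI : GIStmt) (hGR : GRStmt) (hAO : AOStmt) : AMStmt := by
  classical
  intro n P hQ hND
  -- lifts of the plane equations
  have hG : ∀ i j : Fin n, ∃ (G : MvPolynomial (Fin n) Qb) (a b : ℕ), i ≠ j →
      MvPolynomial.map (algebraMap Qb ℂ) G ∈ P ∧
      (∀ m ∈ G.support, m i ≤ a ∧ m j ≤ b ∧ ∀ l : Fin n, l ≠ i → l ≠ j → m l = 0) ∧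
      MvPolynomial.coeff (Finsupp.single i a + Finsupp.single j b) G = 1 := by
    intro i j
    by_cases hij : i = j
    · exact ⟨0, 0, 0, fun h => absurd hij h⟩
    · obtain ⟨G, hGP, hGa, a, b, hs, hc⟩ := hGI n P hQ hND i j hij
      have h1 : G ∈ Set.range (MvPolynomial.map (σ := Fin n) (algebraMap Qb ℂ)) := by
        refine MvPolynomial.mem_range_map_iff_coeffs_subset.2 fun y hy => ?_
        obtain ⟨m, -, rfl⟩ := MvPolynomial.mem_coeffs_iff.1 hy
        exact ⟨⟨_, (mem_algebraicClosure_iff).2 (hGa m)⟩, rfl⟩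
      obtain ⟨G', hG'⟩ := h1
      refine ⟨G', a, b, fun _ => ⟨by rw [hG']; exact hGP, fun m hm => ?_, ?_⟩⟩
      · refine hs m ?_
        rw [MvPolynomial.mem_support_iff] at hm ⊢
        rw [← hG', MvPolynomial.coeff_map]
        exact (_root_.map_ne_zero _).2 hm
      · have h2 : algebraMap Qb ℂ
            (MvPolynomial.coeff (Finsupp.single i a + Finsupp.single j b) G') =
            algebraMap Qb ℂ 1 := by
          rw [← MvPolynomial.coeff_map, hG', hc, map_one]
        exact (algebraMap Qb ℂ).injective h2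
  choose G a b hG using hG
  -- the main step
  have main : ∀ (K : Type) [NormedField K] [IsUltrametricDist K] (ι : Qb →+* K) (C : ℝ), 1 ≤ C →
      (∀ i j : Fin n, ∀ m, ‖ι (MvPolynomial.coeff m (G i j))‖ ≤ C) → AtMost P ι C := by
    intro K _ _ ι C hC hco x hx i j hij
    obtain ⟨hGP, hs, hc⟩ := hG i j hij
    refine hAO K n (MvPolynomial.map ι (G i j)) i j (a i j) (b i j) C hC hij ?_ ?_ ?_
      (fun l => ι (x l)) ?_
    · intro m hm
      refine hs m ?_
      rw [MvPolynomial.mem_support_iff] at hm ⊢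
      intro h0
      rw [MvPolynomial.coeff_map, h0, map_zero] at hm
      exact hm rfl
    · intro m
      rw [MvPolynomial.coeff_map]
      exact hco i j m
    · rw [MvPolynomial.coeff_map, hc, map_one]
    · have h1 := hx _ hGP
      rw [MvPolynomial.eval_map] at h1
      have h2 : algebraMap Qb ℂ (MvPolynomial.eval x (G i j)) = 0 := by
        rw [← h1, MvPolynomial.eval, MvPolynomial.coe_eval₂Hom, MvPolynomial.hom_eval₂]
        rfl
      have h3 : MvPolynomial.eval x (G i j) = 0 :=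
        (algebraMap Qb ℂ).injective (by rw [h2, map_zero])
      have h4 : ι (MvPolynomial.eval x (G i j)) = 0 := by rw [h3, map_zero]
      rw [MvPolynomial.eval_map, ← h4, MvPolynomial.eval, MvPolynomial.coe_eval₂Hom,
        MvPolynomial.hom_eval₂]
      rfl
  refine ⟨?_, ?_⟩
  · intro K _ _ ι
    obtain ⟨C, hC⟩ : ∃ C : ℝ, C = 1 + ∑ i : Fin n, ∑ j : Fin n, ∑ m ∈ (G i j).support,
      ‖ι (MvPolynomial.coeff m (G i j))‖ := ⟨_, rfl⟩
    have h0 : ∀ i j : Fin n, (0 : ℝ) ≤ ∑ m ∈ (G i j).support,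
        ‖ι (MvPolynomial.coeff m (G i j))‖ :=
      fun i j => Finset.sum_nonneg fun m _ => norm_nonneg _
    have h00 : ∀ i : Fin n, (0 : ℝ) ≤ ∑ j : Fin n, ∑ m ∈ (G i j).support,
        ‖ι (MvPolynomial.coeff m (G i j))‖ := fun i => Finset.sum_nonneg fun j _ => h0 i j
    have h1 : 1 ≤ C := by
      rw [hC]
      exact le_add_of_nonneg_right (Finset.sum_nonneg fun i _ => h00 i)
    refine ⟨C, h1, main K ι C h1 fun i j m => ?_⟩
    by_cases hm : m ∈ (G i j).support
    · have e1 : ‖ι (MvPolynomial.coeff m (G i j))‖ ≤ ∑ m ∈ (G i j).support,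
          ‖ι (MvPolynomial.coeff m (G i j))‖ :=
        Finset.single_le_sum (f := fun m => ‖ι (MvPolynomial.coeff m (G i j))‖)
          (fun m _ => norm_nonneg _) hm
      have e2 : (∑ m ∈ (G i j).support, ‖ι (MvPolynomial.coeff m (G i j))‖) ≤
          ∑ j : Fin n, ∑ m ∈ (G i j).support, ‖ι (MvPolynomial.coeff m (G i j))‖ :=
        Finset.single_le_sum (f := fun j => ∑ m ∈ (G i j).support,
          ‖ι (MvPolynomial.coeff m (G i j))‖) (fun j _ => h0 i j) (Finset.mem_univ j)
      have e3 : (∑ j : Fin n, ∑ m ∈ (G i j).support, ‖ι (MvPolynomial.coeff m (G i j))‖) ≤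
          ∑ i : Fin n, ∑ j : Fin n, ∑ m ∈ (G i j).support,
            ‖ι (MvPolynomial.coeff m (G i j))‖ :=
        Finset.single_le_sum (f := fun i => ∑ j : Fin n, ∑ m ∈ (G i j).support,
          ‖ι (MvPolynomial.coeff m (G i j))‖) (fun i _ => h00 i) (Finset.mem_univ i)
      rw [hC]
      linarith
    · rw [MvPolynomial.notMem_support_iff.1 hm, map_zero, norm_zero]
      linarith
  · obtain ⟨S, hS⟩ : ∃ S : Finset ℂ, S = Finset.univ.biUnion fun i : Fin n =>
      Finset.univ.biUnion fun j : Fin n => (G i j).support.image fun m =>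
        ((MvPolynomial.coeff m (G i j) : Qb) : ℂ) := ⟨_, rfl⟩
    obtain ⟨p₀, hp₀⟩ := hGR S (by
      intro g hg
      rw [hS] at hg
      simp only [Finset.mem_biUnion, Finset.mem_image, Finset.mem_univ, true_and] at hg
      obtain ⟨i, j, m, -, rfl⟩ := hg
      exact (mem_algebraicClosure_iff).1 (MvPolynomial.coeff m (G i j)).2)
    refine ⟨p₀, fun p hp hpp K _ _ _ hExt ι => ?_⟩
    refine main K ι 1 le_rfl fun i j m => ?_
    by_cases hm : m ∈ (G i j).support
    · refine hp₀ p hp hpp K hExt ι _ ?_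
      rw [hS]
      simp only [Finset.mem_biUnion, Finset.mem_image, Finset.mem_univ, true_and]
      exact ⟨i, j, m, hm, rfl⟩
    · rw [MvPolynomial.notMem_support_iff.1 hm, map_zero, norm_zero]
      exact zero_le_one

end Pool.Agent.ZPT.H41
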