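import Pool.Agent.ZPT.Stmts

set_option autoImplicit false

/-!
# Squad ZPT, row F1: finiteness of the atypical points of a translated curve
-/

namespace Pool.Agent.ZPT.H41

open Polynomial

theorem f1 (hPS : PSStmt) (hIC : ICStmt) (hIB : IBStmt) (hCF : CFStmt) (hCA : CAStmt)
    (hPF : PFStmt) (hTQ : TQStmt) (hNN : NNStmt) (hEH : EHStmt) (hLOC : LOCStmt) : F1Stmt := by
  intro n P hP hdim hQ p hp hp5 K _ _ _ _ _ hExt ι C hC hAM c hL hni
  obtain ⟨U, Psi, hU, hPC, hPK⟩ := hPS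
  have hK := hPK p hp hp5 K hExt
  -- the polynomials
  have hG : ∀ (m : ℕ) (i j : Fin n), ∃ G : MvPolynomial (Fin n) ℂ,
      (∀ m, IsAlgebraic ℚ (MvPolynomial.coeff m G)) ∧
      ∀ x : Fin n → ℂ, MvPolynomial.eval x G =
        ev2 (Psi m) (x i + (c i : ℂ)) (x j + (c j : ℂ)) :=
    fun m i j => hPF n (Psi m) i j (c i) (c j)
  choose G hGa hGe using hG
  have hGP : ∀ m, 1 ≤ m → ∀ i j, i ≠ j → G m i j ∉ P := by
    intro m hm i j hij hmem
    refine hni i j hij fun x hx => ?_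
    have h := hx _ hmem
    rw [hGe] at h
    exact hIB Psi hPC m hm _ _ h
  have hfin : ∀ m, 1 ≤ m → ∀ i j, i ≠ j →
      {x : Fin n → ℂ | x ∈ V P ∧ MvPolynomial.eval x (G m i j) = 0}.Finite :=
    fun m hm i j hij => hCF n P hP hdim _ (hGP m hm i j hij)
  have halg : ∀ x : Fin n → ℂ, x ∈ V P → ∀ i j, i ≠ j →
      Isog (x i + (c i : ℂ)) (x j + (c j : ℂ)) → ∀ l, IsAlgebraic ℚ (x l) := by
    intro x hx i j hij h l
    obtain ⟨m, hm, h0⟩ := hIC Psi hPC _ _ h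
    refine hCA n P hQ (G m i j) (hGa m i j) (hfin m hm i j hij) x hx ?_ l
    rw [hGe]
    exact h0
  -- the levels
  have hlev : ∀ u v : Fin n, ∃ s t : ℕ, 1 ≤ s ∧ 1 ≤ t ∧ (C < ‖ι (c u)‖ → C < ‖ι (c v)‖ →
      ∀ f f' q q' : K, ‖f‖ ≤ C → ‖f'‖ ≤ C → 0 < ‖q‖ → ‖q‖ < 1 → 0 < ‖q'‖ → ‖q'‖ < 1 →
      jv U q = f + ι (c u) → jv U q' = f' + ι (c v) →
      (∃ A B : ℕ, 1 ≤ A ∧ 1 ≤ B ∧ q ^ A = q' ^ B) → q ^ s = q' ^ t) := by
    intro u v
    by_cases h1 : C < ‖ι (c u)‖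
    · by_cases h2 : C < ‖ι (c v)‖
      · obtain ⟨s, t, hs, ht, h⟩ := hNN U hU p hp hp5 K hExt ι C hC (c u) (c v) h1 h2
        exact ⟨s, t, hs, ht, fun _ _ => h⟩
      · exact ⟨1, 1, le_refl _, le_refl _, fun _ h => absurd h h2⟩
    · exact ⟨1, 1, le_refl _, le_refl _, fun h => absurd h h1⟩
  choose s t hs ht hst using hlev
  have hbig : (⋃ u : Fin n, ⋃ v : Fin n,
      {x : Fin n → ℂ | u ≠ v ∧ x ∈ V P ∧
        MvPolynomial.eval x (G (s u v * t u v) u v) = 0}).Finite := by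
    refine Set.finite_iUnion fun u => Set.finite_iUnion fun v => ?_
    by_cases huv : u = v
    · refine Set.Finite.subset Set.finite_empty fun x hx => ?_
      exact absurd huv hx.1
    · refine (hfin (s u v * t u v) (Nat.mul_pos (hs u v) (ht u v)) u v huv).subset ?_
      exact fun x hx => hx.2
  refine hbig.subset ?_
  rintro x ⟨hx, hA⟩
  -- the coordinates are algebraic
  have hxa : ∀ l, IsAlgebraic ℚ (x l) := by
    rcases hA with ⟨i, j, k, hij, -, -, h1, -⟩ | ⟨i, j, k, l, hij, -, -, -, -, -, h1, -⟩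
    · exact halg x hx i j hij h1
    · exact halg x hx i j hij h1
  obtain ⟨y, hy⟩ : ∃ y : Fin n → Qb, x = fun i => (y i : ℂ) :=
    ⟨fun i => ⟨x i, (mem_algebraicClosure_iff).2 (hxa i)⟩, rfl⟩
  subst hy
  obtain ⟨u, v, huv, hcu, hcv, hyu, hyv, q, q', hq0, hq1, hq0', hq1', hjq, hjq', hAB⟩ :=
    hLOC U Psi hU hPC p hp hp5 K hExt hK ι C hC n y c (hAM y hx) hL hA
  have h1 := hst u v hcu hcv _ _ q q' hyu hyv hq0 hq1 hq0' hq1' hjq hjq' hAB
  have h2 := hTQ U Psi K hK (s u v) (t u v) (hs u v) (ht u v) q q' hq0 hq1 hq0' hq1' h1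
  rw [hjq, hjq', ← map_add, ← map_add, ← hEH Qb K ι] at h2
  have h3 : ev2 (Psi (s u v * t u v)) (y u + c u) (y v + c v) = 0 :=
    ι.injective (by rw [h2, map_zero])
  have h4 := hEH Qb ℂ (algebraMap Qb ℂ) (Psi (s u v * t u v)) (y u + c u) (y v + c v)
  rw [h3, map_zero] at h4
  refine Set.mem_iUnion.2 ⟨u, Set.mem_iUnion.2 ⟨v, huv, hx, ?_⟩⟩
  rw [hGe]
  exact h4.symm

end Pool.Agent.ZPT.H41
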