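import Pool.Agent.ZPT.Stmts

set_option autoImplicit false

/-!
# Squad ZPT, row LOC: the local argument
-/

namespace Pool.Agent.ZPT.H41

open Polynomial

theorem loc (hIS : ISStmt) (hKT : KTStmt) (hIK : IKStmt) : LOCStmt := by
  intro U Psi hU hPC p hp hp5 K _ _ _ _ _ hExt hK ι C hC n x c hnear hL hA
  obtain ⟨hsym, htr⟩ := hKT U hU p hp hp5 K hExt
  have hik := hIK U Psi hU hPC p hp hp5 K hExt hK ι
  obtain ⟨z, hz⟩ : ∃ z : Fin n → Qb, z = fun i => x i + c i := ⟨_, rfl⟩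
  have hzi : ∀ i, z i = x i + c i := fun i => by rw [hz]
  have hzC : ∀ i, ((z i : Qb) : ℂ) = (x i : ℂ) + (c i : ℂ) := fun i => by rw [hzi]; rfl
  have hzK : ∀ i, ι (z i) = ι (x i) + ι (c i) := fun i => by rw [hzi, map_add]
  have hB : ∀ i j : Fin n, i ≠ j → C < ‖ι (c i)‖ ∨ C < ‖ι (c j)‖ := by
    intro i j hij
    rcases hL with h | ⟨hC1, β, h⟩
    · exact Or.inl (h i)
    · by_cases hi : i = β
      · refine Or.inr ?_
        rw [hC1]
        exact h j (fun hj => hij (hi.trans hj.symm))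
      · refine Or.inl ?_
        rw [hC1]
        exact h i hi
  have hNB : ∀ i, ‖ι (x i)‖ ≤ C → C < ‖ι (c i)‖ → 1 < ‖ι (z i)‖ := by
    intro i h1 h2
    have h3 : ‖ι (x i)‖ ≠ ‖ι (c i)‖ := (h1.trans_lt h2).ne
    rw [hzK, IsUltrametricDist.norm_add_eq_max_of_norm_ne_norm h3]
    exact lt_of_le_of_lt hC (h2.trans_le (le_max_right _ _))
  have hNNB : ∀ i, ‖ι (x i)‖ ≤ C → 1 < ‖ι (z i)‖ → C < ‖ι (c i)‖ := by
    intro i h1 h2
    by_contra h3
    push Not at h3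
    rcases hL with h | ⟨hC1, -⟩
    · exact absurd (h i) (not_lt.2 h3)
    · rw [hC1] at h1 h3
      have h4 : ‖ι (z i)‖ ≤ 1 := by
        rw [hzK]
        exact (IsUltrametricDist.norm_add_le_max _ _).trans (max_le h1 h3)
      exact absurd h2 (not_lt.2 h4)
  obtain ⟨R, hR⟩ : ∃ R : Fin n → Fin n → Prop, R = fun u v =>
    (1 < ‖ι (z u)‖ → 1 < ‖ι (z v)‖ ∧ KI U (ι (z u)) (ι (z v))) := ⟨_, rfl⟩
  have hRI : ∀ u v, Isog ((x u : ℂ) + (c u : ℂ)) ((x v : ℂ) + (c v : ℂ)) → R u v := by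
    intro u v h
    rw [hR]
    intro h1
    exact hik (z u) (z v) (by rw [hzC, hzC]; exact h) h1
  have hRI' : ∀ u v, Isog ((x u : ℂ) + (c u : ℂ)) ((x v : ℂ) + (c v : ℂ)) → R v u :=
    fun u v h => hRI v u (hIS _ _ h)
  have hRT : ∀ u v w, R u v → R v w → R u w := by
    intro u v w h1 h2
    rw [hR] at h1 h2 ⊢
    intro h3
    obtain ⟨h4, h5⟩ := h1 h3
    obtain ⟨h6, h7⟩ := h2 h4
    exact ⟨h6, htr _ _ _ h5 h7⟩
  have hfin : ∀ u v : Fin n, u ≠ v → ‖ι (x u)‖ ≤ C → ‖ι (x v)‖ ≤ C → R u v → R v u →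
      ∃ u v : Fin n, u ≠ v ∧ C < ‖ι (c u)‖ ∧ C < ‖ι (c v)‖ ∧ ‖ι (x u)‖ ≤ C ∧ ‖ι (x v)‖ ≤ C ∧
        KI U (ι (x u) + ι (c u)) (ι (x v) + ι (c v)) := by
    intro u v huv hu hv h1 h2
    rw [hR] at h1 h2
    rcases hB u v huv with hb | hb
    · obtain ⟨h3, h4⟩ := h1 (hNB u hu hb)
      refine ⟨u, v, huv, hb, hNNB v hv h3, hu, hv, ?_⟩
      rw [← hzK, ← hzK]
      exact h4
    · obtain ⟨h3, h4⟩ := h2 (hNB v hv hb)
      refine ⟨u, v, huv, hNNB u hu h3, hb, hu, hv, ?_⟩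
      rw [← hzK, ← hzK]
      exact hsym _ _ h4
  rcases hA with ⟨i, j, k, hij, hjk, hik', h1, h2⟩ | ⟨i, j, k, l, hij, hik', hil, hjk, hjl, hkl, h1, h2⟩
  · have r1 := hRI i j h1
    have r2 := hRI' i j h1
    have r3 := hRI j k h2
    have r4 := hRI' j k h2
    by_cases hi : ‖ι (x i)‖ ≤ C
    · by_cases hk : ‖ι (x k)‖ ≤ C
      · exact hfin i k hik' hi hk (hRT _ _ _ r1 r3) (hRT _ _ _ r4 r2)
      · exact hfin i j hij hi ((hnear j k hjk).resolve_right hk) r1 r2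
    · exact hfin j k hjk ((hnear i j hij).resolve_left hi) ((hnear i k hik').resolve_left hi) r3 r4
  · have r1 := hRI i j h1
    have r2 := hRI' i j h1
    have r3 := hRI k l h2
    have r4 := hRI' k l h2
    by_cases hi : ‖ι (x i)‖ ≤ C
    · by_cases hj : ‖ι (x j)‖ ≤ C
      · exact hfin i j hij hi hj r1 r2
      · exact hfin k l hkl ((hnear j k hjk).resolve_left hj) ((hnear j l hjl).resolve_left hj) r3 r4
    · exact hfin k l hkl ((hnear i k hik').resolve_left hi) ((hnear i l hil).resolve_left hi) r3 r4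

end Pool.Agent.ZPT.H41
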