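import Pool.Agent.ZPT.Stmts

set_option autoImplicit false

/-!
# Squad ZPT, row NN: near coordinates have bounded level
-/

namespace Pool.Agent.ZPT.H41

open Polynomial

section units

variable {K : Type} [NormedField K] [IsUltrametricDist K]

theorem nn_one {ρ : ℝ} (hρ : ρ < 1) {x : K} (hx : ‖x - 1‖ ≤ ρ) : ‖x‖ = 1 := by
  have h1 : ‖x - 1‖ ≠ ‖(1 : K)‖ := by
    rw [norm_one]
    exact (hx.trans_lt hρ).ne
  have h2 := IsUltrametricDist.norm_add_eq_max_of_norm_ne_norm h1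
  rw [sub_add_cancel, norm_one] at h2
  rw [h2]
  exact max_eq_right (hx.trans hρ.le)

theorem nn_mul {ρ : ℝ} (hρ : ρ < 1) {x y : K} (hx : ‖x - 1‖ ≤ ρ) (hy : ‖y - 1‖ ≤ ρ) :
    ‖x * y - 1‖ ≤ ρ := by
  have h1 : x * y - 1 = x * (y - 1) + (x - 1) := by ring
  rw [h1]
  refine (IsUltrametricDist.norm_add_le_max _ _).trans (max_le ?_ hx)
  rw [norm_mul, nn_one hρ hx, one_mul]
  exact hy

theorem nn_inv {ρ : ℝ} (hρ : ρ < 1) {x : K} (hx : ‖x - 1‖ ≤ ρ) : ‖x⁻¹ - 1‖ ≤ ρ := by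
  have h0 := nn_one hρ hx
  have hx0 : x ≠ 0 := norm_pos_iff.1 (by rw [h0]; exact one_pos)
  have h1 : x⁻¹ - 1 = -(x⁻¹ * (x - 1)) := by
    field_simp
    ring
  rw [h1, norm_neg, norm_mul, norm_inv, h0, inv_one, one_mul]
  exact hx

theorem nn_pow {ρ : ℝ} (h0 : 0 ≤ ρ) (hρ : ρ < 1) {x : K} (hx : ‖x - 1‖ ≤ ρ) (n : ℕ) :
    ‖x ^ n - 1‖ ≤ ρ := by
  induction n with
  | zero =>
    rw [pow_zero, sub_self, norm_zero]
    exact h0
  | succ n ih =>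
    rw [pow_succ]
    exact nn_mul hρ ih hx

end units

theorem nn (hTB : TBStmt) (hRV : RVStmt) (hFO : FOStmt) : NNStmt := by
  intro U hU p hp hp5 K _ _ _ _ hExt ι C hC c c' hc hc'
  have hC0 : 0 < C := lt_of_lt_of_le one_pos hC
  have hN0 : 0 < ‖ι c‖ := hC0.trans hc
  have hN0' : 0 < ‖ι c'‖ := hC0.trans hc'
  -- facts about one coordinate
  have key : ∀ (d : Qb) (f q : K), C < ‖ι d‖ → ‖f‖ ≤ C → 0 < ‖q‖ → ‖q‖ < 1 →
      jv U q = f + ι d → ‖q‖ = ‖ι d‖⁻¹ ∧ ‖q * ι d - 1‖ ≤ C / ‖ι d‖ := by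
    intro d f q hd hf hq0 hq1 hj
    obtain ⟨h1, h2⟩ := hTB U hU p hp hp5 K hExt q hq0 hq1
    have hd0 : 0 < ‖ι d‖ := hC0.trans hd
    have h3 : ‖f + ι d‖ = ‖ι d‖ := by
      rw [IsUltrametricDist.norm_add_eq_max_of_norm_ne_norm (hf.trans_lt hd).ne]
      exact max_eq_right (hf.trans hd.le)
    have h4 : ‖q‖ = ‖ι d‖⁻¹ := by
      rw [hj, h3] at h2
      rw [h2, inv_inv]
    refine ⟨h4, ?_⟩
    have h5 : q * ι d - 1 = (jv U q * q - 1) + -(q * f) := by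
      rw [hj]
      ring
    rw [h5]
    refine (IsUltrametricDist.norm_add_le_max _ _).trans (max_le (h1.trans ?_) ?_)
    · rw [h4, div_eq_mul_inv]
      exact le_mul_of_one_le_left (inv_nonneg.2 hd0.le) hC
    · rw [norm_neg, norm_mul, h4, mul_comm, div_eq_mul_inv]
      exact mul_le_mul_of_nonneg_right hf (inv_nonneg.2 hd0.le)
  by_cases H : ∃ m m' : ℕ, 1 ≤ m ∧ 1 ≤ m' ∧ ‖ι c‖ ^ m = ‖ι c'‖ ^ m'
  · obtain ⟨m, m', hm, hm', hmm⟩ := H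
    obtain ⟨ρ, hρd⟩ : ∃ ρ : ℝ, ρ = max (C / ‖ι c‖) (C / ‖ι c'‖) := ⟨_, rfl⟩
    have hρ1 : ρ < 1 := by
      rw [hρd]
      exact max_lt ((div_lt_one hN0).2 hc) ((div_lt_one hN0').2 hc')
    have hρ0 : 0 ≤ ρ := by
      rw [hρd]
      exact le_max_of_le_left (div_nonneg hC0.le hN0.le)
    obtain ⟨u, hu⟩ : ∃ u : Qb, u = c' ^ m' / c ^ m := ⟨_, rfl⟩
    have hιu : ι u = ι c' ^ m' / ι c ^ m := by rw [hu, map_div₀, map_pow, map_pow]
    have hnu : ‖ι u‖ = 1 := by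
      rw [hιu, norm_div, norm_pow, norm_pow, hmm]
      exact div_self (pow_pos hN0' _).ne'
    obtain ⟨e, he, he1⟩ := hFO p hp K hExt ι u hnu
    obtain ⟨ρ', hρ'd⟩ : ∃ ρ' : ℝ, ρ' = max ρ ‖ι u ^ e - 1‖ := ⟨_, rfl⟩
    have hρ'1 : ρ' < 1 := by rw [hρ'd]; exact max_lt hρ1 he1
    have hρρ' : ρ ≤ ρ' := by rw [hρ'd]; exact le_max_left _ _
    obtain ⟨R, hR⟩ := hRV p hp (by omega) K hExt ρ' hρ'1
    have hpR : 1 ≤ p ^ R := Nat.pos_of_ne_zero (pow_ne_zero _ hp.ne_zero)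
    refine ⟨m * (e * p ^ R), m' * (e * p ^ R), Nat.mul_pos hm (Nat.mul_pos he hpR),
      Nat.mul_pos hm' (Nat.mul_pos he hpR), ?_⟩
    rintro f f' q q' hf hf' hq0 hq1 hq0' hq1' hj hj' ⟨A, B, hA, hB, hAB⟩
    obtain ⟨k1, k2⟩ := key c f q hc hf hq0 hq1 hj
    obtain ⟨k1', k2'⟩ := key c' f' q' hc' hf' hq0' hq1' hj'
    have l1 : ‖q * ι c - 1‖ ≤ ρ := k2.trans (by rw [hρd]; exact le_max_left _ _)
    have l2 : ‖q' * ι c' - 1‖ ≤ ρ := k2'.trans (by rw [hρd]; exact le_max_right _ _)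
    have hq : q ≠ 0 := norm_pos_iff.1 hq0
    have hq' : q' ≠ 0 := norm_pos_iff.1 hq0'
    have hcK : ι c ≠ 0 := norm_pos_iff.1 hN0
    have hcK' : ι c' ≠ 0 := norm_pos_iff.1 hN0'
    obtain ⟨w, hw⟩ : ∃ w : K, w = q ^ m / q' ^ m' := ⟨_, rfl⟩
    have hw2 : w = ι u * ((q * ι c) ^ m * ((q' * ι c') ^ m')⁻¹) := by
      rw [hw, hιu, mul_pow, mul_pow]
      field_simp
    -- the exponents
    have hNN : ‖ι c‖ ^ A = ‖ι c'‖ ^ B := by
      have h := congrArg norm hAB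
      rw [norm_pow, norm_pow, k1, k1', inv_pow, inv_pow] at h
      exact inv_injective h
    have hAm : A * m' = m * B := by
      have h : ‖ι c‖ ^ (A * m') = ‖ι c‖ ^ (m * B) := by
        rw [pow_mul, hNN, pow_mul, hmm, ← pow_mul, ← pow_mul, mul_comm]
      exact pow_right_injective₀ hN0 (lt_of_le_of_lt hC hc).ne' h
    have hwA : w ^ A = 1 := by
      rw [hw, div_pow, ← pow_mul, ← pow_mul, mul_comm m A, pow_mul, hAB, ← pow_mul,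
        mul_comm m' A, hAm, mul_comm B m]
      exact div_self (pow_ne_zero _ hq')
    have hv : ‖(q * ι c) ^ m * ((q' * ι c') ^ m')⁻¹ - 1‖ ≤ ρ :=
      nn_mul hρ1 (nn_pow hρ0 hρ1 l1 m) (nn_inv hρ1 (nn_pow hρ0 hρ1 l2 m'))
    have hwe : ‖w ^ e - 1‖ ≤ ρ' := by
      rw [hw2, mul_pow]
      refine nn_mul hρ'1 ?_ ?_
      · rw [hρ'd]
        exact le_max_right _ _
      · exact (nn_pow hρ0 hρ1 hv e).trans hρρ'
    have hwr : (w ^ e) ^ (p ^ R) = 1 :=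
      hR (w ^ e) A hA (by rw [← pow_mul, mul_comm, pow_mul, hwA, one_pow]) hwe
    rw [← pow_mul, hw, div_pow, ← pow_mul, ← pow_mul] at hwr
    exact (div_eq_one_iff_eq (pow_ne_zero _ hq')).1 hwr
  · refine ⟨1, 1, le_refl _, le_refl _, ?_⟩
    rintro f f' q q' hf hf' hq0 hq1 hq0' hq1' hj hj' ⟨A, B, hA, hB, hAB⟩
    exfalso
    obtain ⟨k1, -⟩ := key c f q hc hf hq0 hq1 hj
    obtain ⟨k1', -⟩ := key c' f' q' hc' hf' hq0' hq1' hj'
    have h := congrArg norm hAB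
    rw [norm_pow, norm_pow, k1, k1', inv_pow, inv_pow] at h
    exact H ⟨A, B, hA, hB, inv_injective h⟩

end Pool.Agent.ZPT.H41
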