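import Pool.Agent.ZPT.Stmts

set_option autoImplicit false

/-!
# Squad ZPT, rows PF, MC, AM
-/

namespace Pool.Agent.ZPT.H41

open Polynomial
open scoped MatrixGroups

theorem pf : PFStmt := by
  intro n F i j c c'
  obtain ⟨f, hf⟩ : ∃ f : ℚ →+* MvPolynomial (Fin n) Qb,
    f = algebraMap ℚ (MvPolynomial (Fin n) Qb) := ⟨_, rfl⟩
  obtain ⟨G0, hG0⟩ : ∃ G0 : MvPolynomial (Fin n) Qb,
    G0 = (F.map (Polynomial.eval₂RingHom f (MvPolynomial.X i + MvPolynomial.C c))).eval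
      (MvPolynomial.X j + MvPolynomial.C c') := ⟨_, rfl⟩
  refine ⟨MvPolynomial.map (algebraMap Qb ℂ) G0, ?_, ?_⟩
  · intro m
    rw [MvPolynomial.coeff_map]
    exact (mem_algebraicClosure_iff).1 (MvPolynomial.coeff m G0).2
  · intro x
    rw [MvPolynomial.eval_map, hG0]
    obtain ⟨φ, hφ⟩ : ∃ φ : MvPolynomial (Fin n) Qb →+* ℂ,
      φ = MvPolynomial.eval₂Hom (algebraMap Qb ℂ) x := ⟨_, rfl⟩
    have hφX : ∀ (l : Fin n) (a : Qb),
        φ (MvPolynomial.X l + MvPolynomial.C a) = x l + (a : ℂ) := by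
      intro l a
      rw [hφ, map_add, MvPolynomial.eval₂Hom_X', MvPolynomial.eval₂Hom_C]
      rfl
    have h1 : ∀ G : MvPolynomial (Fin n) Qb,
        MvPolynomial.eval₂ (algebraMap Qb ℂ) x G = φ G := fun G => by rw [hφ]; rfl
    rw [h1, ev2, ← Polynomial.eval_map_apply, Polynomial.map_map, hφX]
    have h2 : φ.comp (Polynomial.eval₂RingHom f (MvPolynomial.X i + MvPolynomial.C c)) =
        Polynomial.eval₂RingHom (Rat.castHom ℂ) (x i + (c : ℂ)) := by
      refine Polynomial.ringHom_ext' (Subsingleton.elim _ _) ?_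
      rw [RingHom.comp_apply, Polynomial.coe_eval₂RingHom, Polynomial.coe_eval₂RingHom,
        Polynomial.eval₂_X, Polynomial.eval₂_X, hφX]
    rw [h2]

theorem mc (hMF : MFStmt) (hMP : MPStmt) : MCStmt := by
  intro m hm k
  obtain ⟨F, hF⟩ := hMP m hm k
  obtain ⟨R, hR, hR2⟩ := hMF (k * m) F
  refine ⟨R, hR, fun z => ?_⟩
  have h := (hF z).symm.trans (hR2 z)
  exact mul_left_cancel₀ (pow_ne_zero _ (ModularForm.discriminant_ne_zero z)) h

end Pool.Agent.ZPT.H41
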